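import Mathlib
import Pool.Agent.Helper993.HeisDet
import Pool.Agent.Helper993.Nil
import Pool.Agent.Helper993.LogTrace
import Pool.Agent.Helper993.Metric

open scoped Manifold ContDiff Topology
open Pool.Agent.Helper993.LT

namespace Pool.Agent.Results.MP_154d63_an.NilmanifoldNoLimit

/-- There are a closed Riemannian 3-manifold `M`, a chain `Γ = Γ_0 > Γ_1 > ⋯` of normal subgroups of
finite index with trivial intersection in `Γ = π₁(M)` and a square matrix `A` over `ℤΓ` such that
`tr (log (A_k* A_k)) / [Γ : Γ_k]` has no limit in `[-∞, ∞]`. -/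
theorem result : ∃ (M : Type) (_ : TopologicalSpace M)
    (_ : ChartedSpace (EuclideanSpace ℝ (Fin 3)) M) (_ : IsManifold (𝓡 3) ∞ M)
    (_ : Bundle.ContMDiffRiemannianMetric (𝓡 3) ∞ (EuclideanSpace ℝ (Fin 3))
      (fun x : M => TangentSpace (𝓡 3) x)),
    CompactSpace M ∧ T2Space M ∧ ConnectedSpace M ∧
    ∃ (x : M) (C : NormalChain (FundamentalGroup M x)) (l : ℕ)
      (A : Matrix (Fin l) (Fin l) (MonoidAlgebra ℤ (FundamentalGroup M x))), 1 ≤ l ∧
      ¬ ∃ L : EReal, Filter.Tendsto (fun k => ((normalised C A k : ℝ) : EReal))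
        Filter.atTop (𝓝 L) := by
  obtain ⟨g⟩ := Pool.Agent.Helper993.Metric.exists_metric (𝓡 3) Pool.Agent.Helper993.Nil.Quo
  exact ⟨Pool.Agent.Helper993.Nil.Quo, inferInstance, inferInstance, inferInstance, g,
    inferInstance, inferInstance, inferInstance, Pool.Agent.Helper993.Nil.pt,
    pullChain Pool.Agent.Helper993.Nil.piEquiv, 1,
    Matrix.of fun _ _ => pullElt Pool.Agent.Helper993.Nil.piEquiv, le_rfl,
    not_tendsto Pool.Agent.Helper993.Nil.piEquiv⟩

end Pool.Agent.Results.MP_154d63_an.NilmanifoldNoLimit
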